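import Pool.Agent.H.MP_b23ae3_co.Seven.Defs

/-!
# Module Coef: the total weight with which a dominated vertex `v` is used is at most `42`

`d` = number of `i` with `jn n (v + e i) = 0`. Case `n v ≠ 0`: `d = 0`
(`Near v (v + e i)`, so `jn n (v + e i) ≥ n v`), and each inner count is at most `6` (`i ≠ l`), total
`≤ 7 * 6`. Case `n v = 0`: some `v + e i₀` has `n (v + e i₀) ≠ 0` (`jn n v ≠ 0`), it is not among
the `d` (a vertex with a cop has `jn ≠ 0`). For `l` the inner set is empty unless
`jn n (v + e l) ≠ 0` (apply `ha` to `z = v + e l + e i`, `z + e i = v + e l`) and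
`n (v + e l) = 0` (it is a neighbour of the undominated `z`): so for at most `7 - d - 1` values of `l`;
for such an `l` there is a cop at some `v + e l + e j` (`jn n (v + e l) ≠ 0`, `n (v + e l) = 0`),
`j ≠ l` since `n v = 0`, and `i ≠ l`, `i ≠ j` (`z` has no cop), so the inner count is at most `5`.
Total `≤ 7 * d + 5 * (6 - d) ≤ 42`, as `d ≤ 6`.
-/

set_option autoImplicit false

open Finset

namespace Pool.Agent.H.MP_b23ae3_co.Seven

open Pool.Agent.H.MP_b23ae3_co.Asy

theorem Coef_ne {n : Cube 7 → ℕ} {v w : Cube 7} (h : Near v w) (hv : n v ≠ 0) :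
    jn n w ≠ 0 := by
  intro h0
  unfold jn at h0
  have h1 := Finset.sum_eq_zero_iff.1 h0 v (mem_univ v)
  rw [if_pos h] at h1
  exact hv h1

theorem Coef_nb {n : Cube 7 → ℕ} {w : Cube 7} (h : jn n w ≠ 0) (h0 : n w = 0) :
    ∃ i, n (w + e i) ≠ 0 := by
  by_contra hcon
  apply h
  unfold jn
  refine Finset.sum_eq_zero fun v _ => ?_
  split_ifs with h1
  · rcases h1 with h2 | ⟨i, h2⟩
    · rw [← h2]
      exact h0
    · by_contra h3
      refine hcon ⟨i, ?_⟩
      rw [h2, add_e_add_e]
      exact h3
  · rfl

theorem coef (n : Cube 7 → ℕ) (a : Cube 7 → Option (Fin 7))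
    (ha : ∀ z i, jn n z = 0 → a z = some i → jn n (z + e i) ≠ 0) (v : Cube 7)
    (hv : jn n v ≠ 0) :
    7 * (univ.filter (fun i : Fin 7 => jn n (v + e i) = 0)).card +
      ∑ l : Fin 7, (univ.filter (fun i : Fin 7 => i ≠ l ∧ jn n (v + e l + e i) = 0 ∧
        a (v + e l + e i) = some i)).card ≤ 42 := by
  classical
  by_cases hn : n v = 0
  · -- no cop at `v`
    obtain ⟨i₀, hi₀⟩ := Coef_nb hv hn
    obtain ⟨D, hD⟩ : ∃ D : Finset (Fin 7), D = univ.filter (fun i : Fin 7 => jn n (v + e i) = 0) :=
      ⟨_, rfl⟩
    have hi₀D : i₀ ∉ D := by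
      rw [hD, mem_filter]
      rintro ⟨-, h1⟩
      exact Coef_ne (Or.inl rfl) hi₀ h1
    have hin : ∀ l : Fin 7, (univ.filter (fun i : Fin 7 => i ≠ l ∧ jn n (v + e l + e i) = 0 ∧
        a (v + e l + e i) = some i)).card ≤ if l ∈ insert i₀ D then 0 else 5 := by
      intro l
      split_ifs with hl
      · rw [Nat.le_zero, Finset.card_eq_zero, Finset.filter_eq_empty_iff]
        rintro i - ⟨-, h1, h2⟩
        rcases Finset.mem_insert.1 hl with rfl | hl
        · exact Coef_ne (Or.inr ⟨i, rfl⟩) hi₀ h1
        · rw [hD, mem_filter] at hl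
          have h3 := ha _ i h1 h2
          rw [add_e_add_e] at h3
          exact h3 hl.2
      · have hl1 : l ∉ D := fun h => hl (Finset.mem_insert_of_mem h)
        by_cases hnl : n (v + e l) = 0
        · have h4 : jn n (v + e l) ≠ 0 := by
            intro h5
            exact hl1 (by rw [hD, mem_filter]; exact ⟨mem_univ _, h5⟩)
          obtain ⟨j, hj⟩ := Coef_nb h4 hnl
          have hjl : j ≠ l := by
            rintro rfl
            rw [add_e_add_e] at hj
            exact hj hn
          have hsub : (univ.filter (fun i : Fin 7 => i ≠ l ∧ jn n (v + e l + e i) = 0 ∧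
              a (v + e l + e i) = some i)) ⊆ (univ.erase l).erase j := by
            intro i hi
            rw [mem_filter] at hi
            rw [Finset.mem_erase, Finset.mem_erase]
            refine ⟨?_, hi.2.1, mem_univ _⟩
            rintro rfl
            exact Coef_ne (Or.inl rfl) hj hi.2.2.1
          refine (Finset.card_le_card hsub).trans ?_
          rw [Finset.card_erase_of_mem (Finset.mem_erase.2 ⟨hjl, mem_univ _⟩),
            Finset.card_erase_of_mem (mem_univ _), Finset.card_univ, Fintype.card_fin]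
        · have h5 : (univ.filter (fun i : Fin 7 => i ≠ l ∧ jn n (v + e l + e i) = 0 ∧
              a (v + e l + e i) = some i)) = ∅ := by
            rw [Finset.filter_eq_empty_iff]
            rintro i - ⟨-, h1, -⟩
            exact Coef_ne (Or.inr ⟨i, rfl⟩) hnl h1
          rw [h5, Finset.card_empty]
          exact Nat.zero_le _
    have hsum := Finset.sum_le_sum fun l (_ : l ∈ (univ : Finset (Fin 7))) => hin l
    have hcnt : ∑ l : Fin 7, (if l ∈ insert i₀ D then 0 else 5) =
        5 * (univ \ insert i₀ D).card := by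
      rw [← Finset.sum_filter_add_sum_filter_not univ (fun l => l ∈ insert i₀ D)]
      rw [Finset.sum_congr rfl (g := fun _ => 0) fun l hl => if_pos (mem_filter.1 hl).2,
        Finset.sum_congr rfl (g := fun _ => 5) fun l hl => if_neg (mem_filter.1 hl).2,
        Finset.sum_const_zero, zero_add, Finset.sum_const, smul_eq_mul, mul_comm]
      congr 2
      ext l
      simp only [mem_filter, mem_sdiff, mem_univ, true_and]
    have hcard : (univ \ insert i₀ D).card + (D.card + 1) = 7 := by
      rw [← Finset.card_insert_of_notMem hi₀D, Finset.card_sdiff_add_card_eq_card (subset_univ _),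
        Finset.card_univ, Fintype.card_fin]
    rw [← hD]
    omega
  · -- a cop at `v`
    have h1 : (univ.filter (fun i : Fin 7 => jn n (v + e i) = 0)) = ∅ := by
      rw [Finset.filter_eq_empty_iff]
      intro i _
      exact Coef_ne (Or.inr ⟨i, rfl⟩) hn
    rw [h1, Finset.card_empty, mul_zero, zero_add]
    have h2 : ∀ l ∈ (univ : Finset (Fin 7)),
        (univ.filter (fun i : Fin 7 => i ≠ l ∧ jn n (v + e l + e i) = 0 ∧
          a (v + e l + e i) = some i)).card ≤ 6 := by
      intro l _
      have hsub : (univ.filter (fun i : Fin 7 => i ≠ l ∧ jn n (v + e l + e i) = 0 ∧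
          a (v + e l + e i) = some i)) ⊆ univ.erase l := by
        intro i hi
        rw [mem_filter] at hi
        exact Finset.mem_erase.2 ⟨hi.2.1, mem_univ _⟩
      refine (Finset.card_le_card hsub).trans ?_
      rw [Finset.card_erase_of_mem (mem_univ _), Finset.card_univ, Fintype.card_fin]
    refine (Finset.sum_le_card_nsmul _ _ _ h2).trans ?_
    rw [Finset.card_univ, Fintype.card_fin, smul_eq_mul]

end Pool.Agent.H.MP_b23ae3_co.Seven
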