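import Pool.Agent.H.MP_b23ae3_co.asy.Base

/-!
# Module Defs: the excess of a placement of cops on the seven-dimensional cube

`jn n w` is the number of cops in the closed neighbourhood of `w` (live, asy/Base.lean).
-/

set_option autoImplicit false

open Finset

namespace Pool.Agent.H.MP_b23ae3_co.Seven

open Pool.Agent.H.MP_b23ae3_co.Asy

/-- the excess of `v` -/
def ex (n : Cube 7 → ℕ) (v : Cube 7) : ℕ := jn n v - 1

/-- the sum of the excess over the neighbours of `z` -/
def exN (n : Cube 7 → ℕ) (z : Cube 7) : ℕ := ∑ i, ex n (z + e i)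

/-- the sum of the excess over the neighbours of `z + e a` other than `z` -/
def exM (n : Cube 7 → ℕ) (z : Cube 7) (a : Fin 7) : ℕ :=
  ∑ l ∈ univ.erase a, ex n (z + e a + e l)

/-- number of neighbours of `z` in the closed neighbourhood of `v` -/
def fN (z v : Cube 7) : ℕ := (univ.filter (fun i : Fin 7 => Near v (z + e i))).card

/-- number of neighbours of `z + e a`, other than `z`, in the closed neighbourhood of `v` -/
def fM (z : Cube 7) (a : Fin 7) (v : Cube 7) : ℕ :=
  ((univ.erase a).filter (fun l : Fin 7 => Near v (z + e a + e l))).card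

end Pool.Agent.H.MP_b23ae3_co.Seven
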