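import Pool.Agent.H.MP_b23ae3_co.Seven.Coef

/-!
# Module Glob: the excess is at least the number of undominated vertices

Choose `a : Cube 7 → Option (Fin 7)`: `none` if `6 ≤ exN n z` (or `jn n z ≠ 0`), otherwise
`some i` with the second alternative. Then `42 * card Z` is at most the sum over `z ∈ Z` of
`7 * exN n z` plus, for every `i` with `a z = some i`, `exM n z i`. Exchange the sums
(`sum_shift`-like reindexing `z ↦ z + e i`, `z ↦ z + e i + e l`; `ex n v = 0` if `jn n v = 0`)
to get at most `∑ v, ex n v * (the left side of coef)`, and use `coef`.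
-/

set_option autoImplicit false

open Finset

namespace Pool.Agent.H.MP_b23ae3_co.Seven

open Pool.Agent.H.MP_b23ae3_co.Asy

private theorem Glob_shift (f : Cube 7 → ℕ) (w : Cube 7) : ∑ x, f (x + w) = ∑ x, f x :=
  Equiv.sum_comp (Equiv.addRight w) f

private theorem Glob_one (n : Cube 7 → ℕ) :
    ∑ z ∈ univ.filter (fun z => jn n z = 0), 7 * exN n z =
      ∑ v, ex n v * (7 * (univ.filter (fun i : Fin 7 => jn n (v + e i) = 0)).card) := by
  calc ∑ z ∈ univ.filter (fun z => jn n z = 0), 7 * exN n z
      = ∑ z, ∑ i, (if jn n z = 0 then 7 * ex n (z + e i) else 0) := by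
        rw [Finset.sum_filter]
        refine Finset.sum_congr rfl fun z _ => ?_
        by_cases hz : jn n z = 0
        · simp only [hz, if_true, exN, Finset.mul_sum]
        · simp only [hz, if_false, Finset.sum_const_zero]
    _ = ∑ i, ∑ z, (if jn n z = 0 then 7 * ex n (z + e i) else 0) := Finset.sum_comm
    _ = ∑ i, ∑ v, (if jn n (v + e i) = 0 then 7 * ex n v else 0) := by
        refine Finset.sum_congr rfl fun i _ => ?_
        rw [← Glob_shift (fun z => if jn n z = 0 then 7 * ex n (z + e i) else 0) (e i)]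
        refine Finset.sum_congr rfl fun v _ => ?_
        simp only [add_e_add_e]
    _ = ∑ v, ∑ i, (if jn n (v + e i) = 0 then 7 * ex n v else 0) := Finset.sum_comm
    _ = ∑ v, ex n v * (7 * (univ.filter (fun i : Fin 7 => jn n (v + e i) = 0)).card) := by
        refine Finset.sum_congr rfl fun v _ => ?_
        rw [Finset.card_filter, Finset.mul_sum, Finset.mul_sum]
        refine Finset.sum_congr rfl fun i _ => ?_
        by_cases hz : jn n (v + e i) = 0
        · rw [if_pos hz, if_pos hz]
          ring
        · rw [if_neg hz, if_neg hz]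
          ring

private theorem Glob_two (n : Cube 7 → ℕ) (a : Cube 7 → Option (Fin 7)) :
    ∑ z ∈ univ.filter (fun z => jn n z = 0), ∑ i, (if a z = some i then exM n z i else 0) =
      ∑ v, ex n v * ∑ l : Fin 7, (univ.filter (fun i : Fin 7 => i ≠ l ∧
        jn n (v + e l + e i) = 0 ∧ a (v + e l + e i) = some i)).card := by
  calc ∑ z ∈ univ.filter (fun z => jn n z = 0), ∑ i, (if a z = some i then exM n z i else 0)
      = ∑ z, ∑ i, ∑ l, (if i ≠ l ∧ jn n z = 0 ∧ a z = some i then ex n (z + e i + e l) else 0) := by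
        rw [Finset.sum_filter]
        refine Finset.sum_congr rfl fun z _ => ?_
        by_cases hz : jn n z = 0
        · rw [if_pos hz]
          refine Finset.sum_congr rfl fun i _ => ?_
          by_cases hi : a z = some i
          · rw [if_pos hi, exM, ← Finset.filter_ne, Finset.sum_filter]
            refine Finset.sum_congr rfl fun l _ => ?_
            by_cases hl : i ≠ l
            · rw [if_pos hl, if_pos ⟨hl, hz, hi⟩]
            · rw [if_neg hl, if_neg fun h => hl h.1]
          · rw [if_neg hi]
            refine (Finset.sum_eq_zero fun l _ => ?_).symm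
            rw [if_neg fun h => hi h.2.2]
        · rw [if_neg hz]
          refine (Finset.sum_eq_zero fun i _ => Finset.sum_eq_zero fun l _ => ?_).symm
          rw [if_neg fun h => hz h.2.1]
    _ = ∑ i, ∑ z, ∑ l, (if i ≠ l ∧ jn n z = 0 ∧ a z = some i then ex n (z + e i + e l) else 0) :=
        Finset.sum_comm
    _ = ∑ i, ∑ l, ∑ z, (if i ≠ l ∧ jn n z = 0 ∧ a z = some i then ex n (z + e i + e l) else 0) :=
        Finset.sum_congr rfl fun i _ => Finset.sum_comm
    _ = ∑ i, ∑ l, ∑ v, (if i ≠ l ∧ jn n (v + e l + e i) = 0 ∧ a (v + e l + e i) = some i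
          then ex n v else 0) := by
        refine Finset.sum_congr rfl fun i _ => Finset.sum_congr rfl fun l _ => ?_
        rw [← Glob_shift (fun z => if i ≠ l ∧ jn n z = 0 ∧ a z = some i
          then ex n (z + e i + e l) else 0) (e i),
          ← Glob_shift (fun z => (fun z => if i ≠ l ∧ jn n z = 0 ∧ a z = some i
          then ex n (z + e i + e l) else 0) (z + e i)) (e l)]
        refine Finset.sum_congr rfl fun v _ => ?_
        simp only [add_e_add_e]
    _ = ∑ i, ∑ v, ∑ l, (if i ≠ l ∧ jn n (v + e l + e i) = 0 ∧ a (v + e l + e i) = some i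
          then ex n v else 0) := Finset.sum_congr rfl fun i _ => Finset.sum_comm
    _ = ∑ v, ∑ i, ∑ l, (if i ≠ l ∧ jn n (v + e l + e i) = 0 ∧ a (v + e l + e i) = some i
          then ex n v else 0) := Finset.sum_comm
    _ = ∑ v, ∑ l, ∑ i, (if i ≠ l ∧ jn n (v + e l + e i) = 0 ∧ a (v + e l + e i) = some i
          then ex n v else 0) := Finset.sum_congr rfl fun v _ => Finset.sum_comm
    _ = ∑ v, ex n v * ∑ l : Fin 7, (univ.filter (fun i : Fin 7 => i ≠ l ∧
        jn n (v + e l + e i) = 0 ∧ a (v + e l + e i) = some i)).card := by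
        refine Finset.sum_congr rfl fun v _ => ?_
        rw [Finset.mul_sum]
        refine Finset.sum_congr rfl fun l _ => ?_
        rw [Finset.card_filter, Finset.mul_sum]
        refine Finset.sum_congr rfl fun i _ => ?_
        by_cases hz : i ≠ l ∧ jn n (v + e l + e i) = 0 ∧ a (v + e l + e i) = some i
        · rw [if_pos hz, if_pos hz, mul_one]
        · rw [if_neg hz, if_neg hz, mul_zero]

theorem glob (n : Cube 7 → ℕ)
    (h : ∀ z, jn n z = 0 → 6 ≤ exN n z ∨
      ∃ i, jn n (z + e i) ≠ 0 ∧ 42 ≤ 7 * exN n z + exM n z i) :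
    (univ.filter (fun z => jn n z = 0)).card ≤ ∑ v, ex n v := by
  classical
  have h1 : ∀ z, ∃ o : Option (Fin 7), jn n z = 0 → ((o = none ∧ 6 ≤ exN n z) ∨
      ∃ i, o = some i ∧ jn n (z + e i) ≠ 0 ∧ 42 ≤ 7 * exN n z + exM n z i) := by
    intro z
    by_cases hz : jn n z = 0
    · rcases h z hz with h2 | ⟨i, h2, h3⟩
      · exact ⟨none, fun _ => Or.inl ⟨rfl, h2⟩⟩
      · exact ⟨some i, fun _ => Or.inr ⟨i, rfl, h2, h3⟩⟩
    · exact ⟨none, fun h2 => absurd h2 hz⟩
  choose a ha using h1
  have hA : ∀ z i, jn n z = 0 → a z = some i → jn n (z + e i) ≠ 0 := by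
    intro z i hz hi
    rcases ha z hz with ⟨h2, -⟩ | ⟨j, h2, h3, -⟩
    · rw [h2] at hi
      exact absurd hi (by simp)
    · rw [h2] at hi
      rw [← Option.some.inj hi]
      exact h3
  have hB : ∀ z ∈ univ.filter (fun z => jn n z = 0),
      42 ≤ 7 * exN n z + ∑ i, (if a z = some i then exM n z i else 0) := by
    intro z hz
    have hz' : jn n z = 0 := (Finset.mem_filter.1 hz).2
    rcases ha z hz' with ⟨-, h3⟩ | ⟨j, h2, -, h4⟩
    · omega
    · have h5 : (if a z = some j then exM n z j else 0) ≤
          ∑ i, (if a z = some i then exM n z i else 0) :=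
        Finset.single_le_sum (f := fun i => if a z = some i then exM n z i else 0)
          (fun i _ => Nat.zero_le _) (Finset.mem_univ j)
      rw [if_pos h2] at h5
      omega
  have h2 : (univ.filter (fun z => jn n z = 0)).card * 42 ≤
      ∑ z ∈ univ.filter (fun z => jn n z = 0),
        (7 * exN n z + ∑ i, (if a z = some i then exM n z i else 0)) := by
    have h3 := Finset.card_nsmul_le_sum _ _ _ hB
    rwa [smul_eq_mul] at h3
  rw [Finset.sum_add_distrib, Glob_one, Glob_two, ← Finset.sum_add_distrib] at h2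
  have h3 : ∑ v, (ex n v * (7 * (univ.filter (fun i : Fin 7 => jn n (v + e i) = 0)).card) +
      ex n v * ∑ l : Fin 7, (univ.filter (fun i : Fin 7 => i ≠ l ∧
        jn n (v + e l + e i) = 0 ∧ a (v + e l + e i) = some i)).card) ≤ ∑ v, ex n v * 42 := by
    refine Finset.sum_le_sum fun v _ => ?_
    rw [← mul_add]
    by_cases hv : jn n v = 0
    · have h4 : ex n v = 0 := by
        unfold ex
        omega
      rw [h4, zero_mul, zero_mul]
    · exact Nat.mul_le_mul_left _ (coef n a hA v hv)
  rw [← Finset.sum_mul] at h3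
  have h4 := h2.trans h3
  omega

end Pool.Agent.H.MP_b23ae3_co.Seven
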