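import Pool.Agent.H.MP_b23ae3_co.asy.Base

/-!
# Module Iso: small sets of vertices of the seven-dimensional cube have large boundary
-/

set_option autoImplicit false

open Finset

namespace Pool.Agent.H.MP_b23ae3_co.Seven

open Pool.Agent.H.MP_b23ae3_co.Asy

/-- closed neighbourhood of a set -/
def Iso_cn {m : ℕ} (S : Finset (Cube m)) : Finset (Cube m) :=
  univ.filter (fun x => x ∈ S ∨ ∃ i, x + e i ∈ S)

/-- slice of a set -/
def Iso_sl {m : ℕ} (b : ZMod 2) (S : Finset (Cube (m + 1))) : Finset (Cube m) :=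
  univ.filter (fun x => (Fin.cons b x : Cube (m + 1)) ∈ S)

theorem Iso_cons_succ {m : ℕ} (b : ZMod 2) (x : Cube m) (i : Fin m) :
    (Fin.cons b (x + e i) : Cube (m + 1)) = (Fin.cons b x : Cube (m + 1)) + e i.succ := by
  funext j
  refine Fin.cases ?_ (fun j => ?_) j
  · simp [e, (Fin.succ_ne_zero i).symm]
  · simp [e, Pi.single_apply]

theorem Iso_cons_zero {m : ℕ} (b : ZMod 2) (x : Cube m) :
    (Fin.cons (b + 1) x : Cube (m + 1)) = (Fin.cons b x : Cube (m + 1)) + e 0 := by
  funext j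
  refine Fin.cases ?_ (fun j => ?_) j
  · simp [e]
  · simp [e, Pi.single_apply, Fin.succ_ne_zero]

theorem Iso_card_sl {m : ℕ} (S : Finset (Cube (m + 1))) :
    S.card = (Iso_sl 0 S).card + (Iso_sl 1 S).card := by
  have h1 : S.card = ∑ x : Cube (m + 1), if x ∈ S then 1 else 0 := by
    rw [Finset.sum_boole]
    simp
  have h2 : ∀ b : ZMod 2, (Iso_sl b S).card
      = ∑ x : Cube m, if (Fin.cons b x : Cube (m + 1)) ∈ S then 1 else 0 := by
    intro b
    unfold Iso_sl
    rw [Finset.card_filter]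
  rw [h1, h2, h2, ← (Fin.consEquiv (fun _ : Fin (m + 1) => ZMod 2)).sum_comp,
    Fintype.sum_prod_type]
  exact Fin.sum_univ_two _

theorem Iso_sl_cn {m : ℕ} (b : ZMod 2) (S : Finset (Cube (m + 1))) :
    max (Iso_cn (Iso_sl b S)).card (Iso_sl (b + 1) S).card ≤ (Iso_sl b (Iso_cn S)).card := by
  apply max_le
  · apply Finset.card_le_card
    intro x hx
    simp only [Iso_cn, Iso_sl, Finset.mem_filter, Finset.mem_univ, true_and] at hx ⊢
    rcases hx with hx | ⟨i, hx⟩
    · exact Or.inl hx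
    · rw [Iso_cons_succ] at hx
      exact Or.inr ⟨_, hx⟩
  · apply Finset.card_le_card
    intro x hx
    simp only [Iso_cn, Iso_sl, Finset.mem_filter, Finset.mem_univ, true_and] at hx ⊢
    rw [Iso_cons_zero] at hx
    exact Or.inr ⟨_, hx⟩

theorem Iso_sl_le {m : ℕ} (b : ZMod 2) (S : Finset (Cube (m + 1))) :
    (Iso_sl b S).card ≤ 2 ^ m := by
  refine (Finset.card_le_univ _).trans ?_
  rw [Fintype.card_fun, ZMod.card, Fintype.card_fin]

theorem Iso_step {m : ℕ} (T T' : ℕ → ℕ)
    (h : ∀ a b, a ≤ 2 ^ m → b ≤ 2 ^ m → T' (a + b) ≤ max (T a) b + max (T b) a)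
    (hT : ∀ S : Finset (Cube m), T S.card ≤ (Iso_cn S).card) (S : Finset (Cube (m + 1))) :
    T' S.card ≤ (Iso_cn S).card := by
  rw [Iso_card_sl (Iso_cn S), Iso_card_sl S]
  refine (h _ _ (Iso_sl_le 0 S) (Iso_sl_le 1 S)).trans ?_
  have h0 := Iso_sl_cn 0 S
  have h1 := Iso_sl_cn 1 S
  have e01 : (0 : ZMod 2) + 1 = 1 := by decide
  have e11 : (1 : ZMod 2) + 1 = 0 := by decide
  rw [e01] at h0
  rw [e11] at h1
  refine add_le_add (le_trans ?_ h0) (le_trans ?_ h1)
  · exact max_le_max (hT _) le_rfl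
  · exact max_le_max (hT _) le_rfl

/-- a table with entries of one byte -/
def Iso_tab (N s : ℕ) : ℕ := (N >>> (8 * s)) % 256

/-- the inequality of the step, for all `a` below `k` -/
def Iso_chk (N M : ℕ) (K : ℕ) : Bool :=
  (List.range (K + 1)).all fun a => (List.range (K + 1)).all fun b =>
    Nat.ble (Iso_tab M (a + b)) (max (Iso_tab N a) b + max (Iso_tab N b) a)

theorem Iso_of_chk {N M K : ℕ} (h : Iso_chk N M K = true) (a b : ℕ) (ha : a ≤ K) (hb : b ≤ K) :
    Iso_tab M (a + b) ≤ max (Iso_tab N a) b + max (Iso_tab N b) a := by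
  unfold Iso_chk at h
  rw [List.all_eq_true] at h
  have h1 := h a (List.mem_range.2 (by omega))
  rw [List.all_eq_true] at h1
  have h2 := h1 b (List.mem_range.2 (by omega))
  exact Nat.le_of_ble_eq_true h2

def Iso_t0 : ℕ := 256
def Iso_t1 : ℕ := 131584
def Iso_t2 : ℕ := 17247240960
def Iso_t3 : ℕ := 148152673968069149696
def Iso_t4 : ℕ := 5465868921208175365406845837645141509376
def Iso_t5 : ℕ := 3719877627576839872931771827898253050343631358033090287395530926970631103317504
def Iso_t6 : ℕ := 861464804408547101301124403667154379645493019154780714047296526816244260021112394927761531645027099601173629260193666218366505772047203995052488037237524224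
def Iso_t7 : ℕ := 23100709271830732417430950779570815052907862894968673932417284605801266115866434040160217497686828245739936389766140434859666623203065252355411684440194908960010254616565884400892398283209945683096782156314715712774038290821125067653995824102418765246045976105655634800412801741805239621291208560696270749829120

theorem Iso_0 (S : Finset (Cube 0)) : Iso_tab Iso_t0 S.card ≤ (Iso_cn S).card := by
  have h1 : S.card ≤ 1 := by
    refine (Finset.card_le_univ _).trans ?_
    rw [Fintype.card_fun, ZMod.card, Fintype.card_fin]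
    norm_num
  have h2 : S.card ≤ (Iso_cn S).card := by
    apply Finset.card_le_card
    intro x hx
    exact Finset.mem_filter.2 ⟨Finset.mem_univ _, Or.inl hx⟩
  refine le_trans ?_ h2
  interval_cases S.card <;> decide

theorem Iso_1 (S : Finset (Cube 1)) : Iso_tab Iso_t1 S.card ≤ (Iso_cn S).card :=
  Iso_step (Iso_tab Iso_t0) (Iso_tab Iso_t1)
    (Iso_of_chk (K := 2 ^ 0) (by decide +kernel)) Iso_0 S

theorem Iso_2 (S : Finset (Cube 2)) : Iso_tab Iso_t2 S.card ≤ (Iso_cn S).card :=
  Iso_step (Iso_tab Iso_t1) (Iso_tab Iso_t2)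
    (Iso_of_chk (K := 2 ^ 1) (by decide +kernel)) Iso_1 S

theorem Iso_3 (S : Finset (Cube 3)) : Iso_tab Iso_t3 S.card ≤ (Iso_cn S).card :=
  Iso_step (Iso_tab Iso_t2) (Iso_tab Iso_t3)
    (Iso_of_chk (K := 2 ^ 2) (by decide +kernel)) Iso_2 S

theorem Iso_4 (S : Finset (Cube 4)) : Iso_tab Iso_t4 S.card ≤ (Iso_cn S).card :=
  Iso_step (Iso_tab Iso_t3) (Iso_tab Iso_t4)
    (Iso_of_chk (K := 2 ^ 3) (by decide +kernel)) Iso_3 S

theorem Iso_5 (S : Finset (Cube 5)) : Iso_tab Iso_t5 S.card ≤ (Iso_cn S).card :=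
  Iso_step (Iso_tab Iso_t4) (Iso_tab Iso_t5)
    (Iso_of_chk (K := 2 ^ 4) (by decide +kernel)) Iso_4 S

theorem Iso_6 (S : Finset (Cube 6)) : Iso_tab Iso_t6 S.card ≤ (Iso_cn S).card :=
  Iso_step (Iso_tab Iso_t5) (Iso_tab Iso_t6)
    (Iso_of_chk (K := 2 ^ 5) (by decide +kernel)) Iso_5 S

theorem Iso_7 (S : Finset (Cube 7)) : Iso_tab Iso_t7 S.card ≤ (Iso_cn S).card :=
  Iso_step (Iso_tab Iso_t6) (Iso_tab Iso_t7)
    (Iso_of_chk (K := 2 ^ 6) (by decide +kernel)) Iso_6 S

theorem Iso_last : ∀ s : ℕ, s < 65 → 3 ≤ s → s + 16 ≤ Iso_tab Iso_t7 s := by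
  decide +kernel

theorem iso7 (S : Finset (Cube 7)) (h3 : 3 ≤ S.card) (h64 : S.card ≤ 64) : 16 ≤ (bd S).card := by
  have h1 := Iso_7 S
  have h2 := Iso_last S.card (by omega) h3
  have h4 : (Iso_cn S).card ≤ S.card + (bd S).card := by
    refine le_trans (Finset.card_le_card ?_) (Finset.card_union_le _ _)
    intro x hx
    simp only [Iso_cn, Finset.mem_filter, Finset.mem_univ, true_and] at hx
    rw [Finset.mem_union, mem_bd]
    by_cases hxS : x ∈ S
    · exact Or.inl hxS
    · rcases hx with hx | hx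
      · exact Or.inl hx
      · exact Or.inr ⟨hxS, hx⟩
  omega

end Pool.Agent.H.MP_b23ae3_co.Seven
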