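import Pool.Agent.H.MP_b23ae3_co.Seven.Defs

/-!
# Module Pts: the possible positions of the matched cops

`x = z + e i` (or `x = z + e a + e i`), the cop is at `v` with `Near x v`, and `z` has no cop in its
closed neighbourhood although `n v ≠ 0`, so `v` is not in the closed neighbourhood of `z`
(`¬ Near z v`; use `not_near`). All counts `fN`, `fM` are invariant under translation by `z`
(`Near (z + v) (z + w) ↔ Near v w`), so one can take `z = 0`; then the facts are finite and can be
checked by `decide` over the indices, for example `∀ i l j : Fin 7, i ≠ l →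
(Near (e i + e l) (e j) ↔ j = i ∨ j = l)`.
-/

set_option autoImplicit false

open Finset

namespace Pool.Agent.H.MP_b23ae3_co.Seven

open Pool.Agent.H.MP_b23ae3_co.Asy

theorem Pts_par (i : Fin 7) : ∑ j, (e i : Cube 7) j = 1 := by
  unfold e
  rw [Finset.sum_pi_single']
  simp

theorem Pts_e (k i : Fin 7) : (e i : Cube 7) k = if k = i then 1 else 0 := by
  unfold e
  rw [Pi.single_apply]

theorem Pts_ne1 (i j k : Fin 7) : (e k : Cube 7) ≠ e i + e j := by
  intro h
  have h1 := congrArg (fun x : Cube 7 => ∑ l, x l) h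
  simp only [Pi.add_apply, Finset.sum_add_distrib, Pts_par] at h1
  exact absurd h1 (by decide)

theorem Pts_three (i j k l : Fin 7) (hij : i ≠ j) (h : (e k : Cube 7) = e i + e j + e l) :
    k = i ∨ k = j := by
  by_contra hk
  push Not at hk
  have h1 := congrFun h k
  rw [Pi.add_apply, Pi.add_apply, Pts_e, Pts_e, Pts_e, Pts_e, if_pos rfl, if_neg hk.1,
    if_neg hk.2] at h1
  by_cases hl : k = l
  · rw [← hl] at h
    have h2 : (e i : Cube 7) + e j = 0 := by
      have h3 : (e k : Cube 7) + e k = e i + e j + e k + e k := by rw [← h]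
      rw [e_add_e, add_e_add_e] at h3
      exact h3.symm
    have h4 : (e i : Cube 7) = e j := by
      have h5 : (e i : Cube 7) + e j + e j = 0 + e j := by rw [h2]
      rw [add_e_add_e, zero_add] at h5
      exact h5
    exact hij (e_injective h4)
  · rw [if_neg hl] at h1
    exact absurd h1 (by decide)

theorem Pts_far (i j : Fin 7) (h : (e i : Cube 7) + e j = 0) : i = j := by
  have h5 : (e i : Cube 7) + e j + e j = 0 + e j := by rw [h]
  rw [add_e_add_e, zero_add] at h5
  exact e_injective h5

theorem not_near (n : Cube 7 → ℕ) (z v : Cube 7) (hz : jn n z = 0) (hv : n v ≠ 0) :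
    ¬ Near z v := by
  intro h
  unfold jn at hz
  rw [Finset.sum_eq_zero_iff] at hz
  have h1 := hz v (Finset.mem_univ v)
  rw [if_pos h.symm'] at h1
  exact hv h1

theorem Pts_near (z : Cube 7) (i j k : Fin 7) (hij : i ≠ j) :
    Near (z + e i + e j) (z + e k) ↔ k = i ∨ k = j := by
  constructor
  · rintro (h | ⟨l, h⟩)
    · rw [add_assoc] at h
      exact absurd (add_left_cancel h) (Pts_ne1 i j k)
    · have h1 : z + e k = z + (e i + e j + e l) := by
        rw [h]
        abel
      exact Pts_three i j k l hij (add_left_cancel h1)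
  · rintro (h | h)
    · rw [h]
      exact Or.inr ⟨j, (add_e_add_e (z + e i) j).symm⟩
    · rw [h]
      refine Or.inr ⟨i, ?_⟩
      rw [add_right_comm z (e i) (e j), add_e_add_e]

theorem Pts_fN (z : Cube 7) (i j : Fin 7) (hij : i ≠ j) : fN z (z + e i + e j) = 2 := by
  unfold fN
  have h1 : univ.filter (fun k : Fin 7 => Near (z + e i + e j) (z + e k)) = {i, j} := by
    ext k
    simp only [Finset.mem_filter, Finset.mem_univ, true_and, Finset.mem_insert,
      Finset.mem_singleton]
    exact Pts_near z i j k hij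
  rw [h1, Finset.card_pair hij]

/-- a cop next to `z + e i` but not near `z` is near exactly two neighbours of `z` -/
theorem fN_two (z v : Cube 7) (i : Fin 7) (h1 : Near (z + e i) v) (h2 : ¬ Near z v) :
    fN z v = 2 := by
  rcases h1 with h | ⟨j, h⟩
  · exact absurd (Or.inr ⟨i, h⟩) h2
  · have hij : i ≠ j := by
      intro hij
      rw [← hij, add_e_add_e] at h
      exact h2 (Or.inl h)
    rw [h]
    exact Pts_fN z i j hij

/-- a cop next to `z + e a + e i` (`i ≠ a`), not near `z`, not at `z + e a`: it is at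
`z + e a + e i`, or at `z + e a + e i + e l` with `l ≠ a`, `l ≠ i`; in both cases
`2 ≤ 7 * fN + fM`. -/
theorem f_two (z v : Cube 7) (a i : Fin 7) (hi : i ≠ a) (h1 : Near (z + e a + e i) v)
    (h2 : ¬ Near z v) : 2 ≤ 7 * fN z v + fM z a v := by
  rcases h1 with h | ⟨l, h⟩
  · rw [h, Pts_fN z a i hi.symm]
    omega
  · have hla : l ≠ a := by
      intro hla
      rw [hla, add_right_comm z (e a) (e i), add_e_add_e] at h
      exact h2 (Or.inr ⟨i, h⟩)
    have hli : l ≠ i := by
      intro hli
      rw [hli, add_e_add_e] at h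
      exact h2 (Or.inr ⟨a, h⟩)
    have h3 : 2 ≤ fM z a v := by
      unfold fM
      refine (Finset.card_pair hli).symm.le.trans (Finset.card_le_card ?_)
      intro k hk
      rw [Finset.mem_insert, Finset.mem_singleton] at hk
      rw [Finset.mem_filter, Finset.mem_erase]
      rcases hk with hk | hk
      · rw [hk, h]
        refine ⟨⟨hla, Finset.mem_univ _⟩, Or.inr ⟨i, ?_⟩⟩
        rw [add_right_comm (z + e a) (e i) (e l), add_e_add_e]
      · rw [hk, h]
        refine ⟨⟨hi, Finset.mem_univ _⟩, Or.inr ⟨l, ?_⟩⟩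
        rw [add_e_add_e]
    omega

/-- a cop at `z + e a + e l`, `l ≠ a` -/
theorem f_fifteen (z : Cube 7) (a l : Fin 7) (hl : l ≠ a) :
    7 * fN z (z + e a + e l) + fM z a (z + e a + e l) = 15 := by
  rw [Pts_fN z a l hl.symm]
  have h1 : fM z a (z + e a + e l) = 1 := by
    unfold fM
    rw [Finset.card_eq_one]
    refine ⟨l, ?_⟩
    ext k
    simp only [Finset.mem_filter, Finset.mem_erase, Finset.mem_univ, and_true,
      Finset.mem_singleton]
    constructor
    · rintro ⟨_, h | ⟨j, h⟩⟩
      · exact e_injective (add_left_cancel h)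
      · rw [add_assoc (z + e a) (e l) (e j)] at h
        exact absurd (add_left_cancel h) (Pts_ne1 l j k)
    · intro h
      rw [h]
      exact ⟨hl, Or.inl rfl⟩
  rw [h1]

/-- the boundary of `{z}` and of `{z, y}` -/
theorem Pts_add_ne (z : Cube 7) (i : Fin 7) : z + e i ≠ z := by
  intro h
  exact e_ne_zero i (add_eq_left.1 h)

theorem mem_bd_single (z : Cube 7) (i : Fin 7) : z + e i ∈ bd ({z} : Finset (Cube 7)) := by
  rw [mem_bd, Finset.mem_singleton]
  refine ⟨Pts_add_ne z i, i, ?_⟩
  rw [add_e_add_e]
  exact Finset.mem_singleton_self z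

theorem mem_bd_pair (z y : Cube 7) (hy : ∀ i, y ≠ z + e i) (i : Fin 7) :
    z + e i ∈ bd ({z, y} : Finset (Cube 7)) := by
  rw [mem_bd, Finset.mem_insert, Finset.mem_singleton]
  refine ⟨?_, i, ?_⟩
  · rintro (h | h)
    · exact Pts_add_ne z i h
    · exact hy i h.symm
  · rw [add_e_add_e]
    exact Finset.mem_insert_self z _

theorem mem_bd_edge (z : Cube 7) (a i : Fin 7) (hi : i ≠ a) :
    z + e i ∈ bd ({z, z + e a} : Finset (Cube 7)) ∧
      z + e a + e i ∈ bd ({z, z + e a} : Finset (Cube 7)) := by
  constructor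
  · rw [mem_bd, Finset.mem_insert, Finset.mem_singleton]
    refine ⟨?_, i, ?_⟩
    · rintro (h | h)
      · exact Pts_add_ne z i h
      · exact hi (e_injective (add_left_cancel h))
    · rw [add_e_add_e]
      exact Finset.mem_insert_self z _
  · rw [mem_bd, Finset.mem_insert, Finset.mem_singleton]
    refine ⟨?_, i, ?_⟩
    · rintro (h | h)
      · rw [add_assoc] at h
        exact hi (Pts_far a i (add_eq_left.1 h)).symm
      · exact Pts_add_ne (z + e a) i h
    · rw [add_e_add_e]
      exact Finset.mem_insert_of_mem (Finset.mem_singleton_self _)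

end Pool.Agent.H.MP_b23ae3_co.Seven
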