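import Pool.Agent.H.MP_b23ae3_co.Seven.Wt
import Pool.Agent.H.MP_b23ae3_co.Seven.Pts

/-!
# Module LocA: threatened singletons, and edges with both ends undominated

`locA`: `wt_le` with `f = fN z`: the seven `x = z + e i ∈ B` have `fN z (c x) = 2` (`fN_two`,
`not_near`; `n (c x) ≠ 0` as `x` is in the filter), so `14 ≤ ∑ v, n v * fN z v ≤ exN n z + 7`.
`locB`: the six `i ≠ a`, `12 ≤ ∑ v, n v * fN z v ≤ exN n z + 6` (`sum_exN_erase`).
(The sum over the members `z + e i` of `B` is at most the sum over `B`; `i ↦ z + e i` is injective: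
`e_injective`.)
-/

set_option autoImplicit false

open Finset

namespace Pool.Agent.H.MP_b23ae3_co.Seven

open Pool.Agent.H.MP_b23ae3_co.Asy

theorem LocA_sum (z : Cube 7) (B : Finset (Cube 7)) (I : Finset (Fin 7))
    (hB : ∀ i ∈ I, z + e i ∈ B) (g : Cube 7 → ℕ) :
    ∑ i ∈ I, g (z + e i) ≤ ∑ x ∈ B, g x := by
  have hinj : Set.InjOn (fun i : Fin 7 => z + e i) (I : Set (Fin 7)) :=
    fun i _ j _ h => e_injective (add_left_cancel h)
  have h1 : ∑ i ∈ I, g (z + e i) = ∑ x ∈ I.image (fun i => z + e i), g x :=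
    (Finset.sum_image hinj).symm
  rw [h1]
  refine Finset.sum_le_sum_of_subset ?_
  intro x hx
  obtain ⟨i, hi, rfl⟩ := Finset.mem_image.1 hx
  exact hB i hi

theorem LocA_two (n : Cube 7 → ℕ) (z : Cube 7) (hz : jn n z = 0) (B : Finset (Cube 7))
    (c : Cube 7 → Cube 7) (h2 : ∀ x ∈ B, Near x (c x))
    (h3 : ∀ v, (B.filter (fun x => c x = v)).card ≤ n v) (i : Fin 7) (hi : z + e i ∈ B) :
    fN z (c (z + e i)) = 2 := by
  refine fN_two z _ i (h2 _ hi) (not_near n z _ hz ?_)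
  have h4 := h3 (c (z + e i))
  have h5 : 0 < (B.filter (fun x => c x = c (z + e i))).card :=
    Finset.card_pos.2 ⟨z + e i, Finset.mem_filter.2 ⟨hi, rfl⟩⟩
  omega

theorem locA (n : Cube 7 → ℕ) (z : Cube 7) (hz : jn n z = 0) (B : Finset (Cube 7))
    (c : Cube 7 → Cube 7) (hB : ∀ i, z + e i ∈ B) (h2 : ∀ x ∈ B, Near x (c x))
    (h3 : ∀ v, (B.filter (fun x => c x = v)).card ≤ n v) : 6 ≤ exN n z := by
  have h4 := wt_le n B c h3 (fN z)
  have h5 := sum_exN n z
  have h6 := LocA_sum z B univ (fun i _ => hB i) (fun x => fN z (c x))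
  have h7 : ∑ i : Fin 7, fN z (c (z + e i)) = 14 := by
    rw [Finset.sum_congr rfl (fun i _ => LocA_two n z hz B c h2 h3 i (hB i))]
    simp
  omega

theorem locB (n : Cube 7 → ℕ) (z : Cube 7) (hz : jn n z = 0) (a : Fin 7)
    (hy : jn n (z + e a) = 0) (B : Finset (Cube 7))
    (c : Cube 7 → Cube 7) (hB : ∀ i, i ≠ a → z + e i ∈ B) (h2 : ∀ x ∈ B, Near x (c x))
    (h3 : ∀ v, (B.filter (fun x => c x = v)).card ≤ n v) : 6 ≤ exN n z := by
  have h4 := wt_le n B c h3 (fN z)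
  have h5 := sum_exN_erase n z a hy
  have h6 := LocA_sum z B (univ.erase a) (fun i hi => hB i (Finset.ne_of_mem_erase hi))
    (fun x => fN z (c x))
  have h7 : ∑ i ∈ univ.erase a, fN z (c (z + e i)) = 12 := by
    rw [Finset.sum_congr rfl (fun i hi => LocA_two n z hz B c h2 h3 i
      (hB i (Finset.ne_of_mem_erase hi))), Finset.sum_const, Finset.card_erase_of_mem
      (Finset.mem_univ a), Finset.card_univ, Fintype.card_fin]
    norm_num
  omega

end Pool.Agent.H.MP_b23ae3_co.Seven
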