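import Pool.Agent.H.MP_b23ae3_co.Seven.Wt
import Pool.Agent.H.MP_b23ae3_co.Seven.Pts

/-!
# Module LocC: a threatened edge `z, y = z + e a` with `z` undominated and `y` dominated

`f v = 7 * fN z v + fM z a v`. The six `x = z + e i`, `i ≠ a`, have `f (c x) ≥ 14` (`fN_two`), the six
`x = z + e a + e i` have `f (c x) ≥ 2` (`f_two`); these twelve vertices are different. As `jn n y ≠ 0`
there is a cop at some `u` with `Near u y`; `u ≠ y` and `u ≠ z` by `not_near`, so `u = y + e l`,
`l ≠ a`, and `f u = 15` (`f_fifteen`). If `u = c x` for some `x ∈ B` of the twelve, its term is `15`,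
at least one more than used; if `u` is not some `c x`, `x ∈ B`, use `wt_le_add` (`15` more); if
`u = c x` for an `x ∈ B` that is not one of the twelve, its term `15` is in addition. So
`97 ≤ ∑ v, n v * f v ≤ 7 * (exN n z + 7) + exM n z a + 6` (`sum_exN`, `sum_exM`).
-/

set_option autoImplicit false

open Finset

namespace Pool.Agent.H.MP_b23ae3_co.Seven

open Pool.Agent.H.MP_b23ae3_co.Asy

private theorem LocC_ne (z : Cube 7) (a i j : Fin 7) (hi : i ≠ a) (hj : j ≠ a) :
    z + e i ≠ z + e a + e j := by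
  intro h
  rw [add_assoc] at h
  have h1 := congrFun (add_left_cancel h) a
  unfold e at h1
  rw [Pi.add_apply, Pi.single_eq_of_ne hi.symm, Pi.single_eq_same, Pi.single_eq_of_ne hj.symm,
    add_zero] at h1
  exact zero_ne_one h1

theorem locC (n : Cube 7 → ℕ) (z : Cube 7) (hz : jn n z = 0) (a : Fin 7)
    (hy : jn n (z + e a) ≠ 0) (B : Finset (Cube 7)) (c : Cube 7 → Cube 7)
    (hB : ∀ i, i ≠ a → z + e i ∈ B ∧ z + e a + e i ∈ B) (h2 : ∀ x ∈ B, Near x (c x))
    (h3 : ∀ v, (B.filter (fun x => c x = v)).card ≤ n v) :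
    42 ≤ 7 * exN n z + exM n z a := by
  classical
  obtain ⟨l, hl, hul⟩ : ∃ l : Fin 7, l ≠ a ∧ n (z + e a + e l) ≠ 0 := by
    have h1 : ∃ v, (if Near v (z + e a) then n v else 0) ≠ 0 := by
      by_contra hcon
      push Not at hcon
      apply hy
      unfold jn
      exact Finset.sum_eq_zero fun v _ => hcon v
    obtain ⟨v, hv⟩ := h1
    have hv1 : Near v (z + e a) := by
      by_contra h
      rw [if_neg h] at hv
      exact hv rfl
    rw [if_pos hv1] at hv
    have hnn := not_near n z v hz hv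
    rcases hv1 with h | ⟨l, h⟩
    · exact absurd (Or.inr ⟨a, h.symm⟩) hnn
    · have hv2 : v = z + e a + e l := by rw [h, add_e_add_e]
      refine ⟨l, ?_, hv2 ▸ hv⟩
      rintro rfl
      apply hnn
      left
      rw [hv2, add_e_add_e]
  have hcn : ∀ x ∈ B, n (c x) ≠ 0 := by
    intro x hx
    have h4 := h3 (c x)
    have h5 : 0 < (B.filter (fun x' => c x' = c x)).card :=
      Finset.card_pos.2 ⟨x, Finset.mem_filter.2 ⟨hx, rfl⟩⟩
    omega
  obtain ⟨f, hf⟩ : ∃ f : Cube 7 → ℕ, f = fun v => 7 * fN z v + fM z a v := ⟨_, rfl⟩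
  have hfu : f (z + e a + e l) = 15 := by
    rw [hf]
    exact f_fifteen z a l hl
  have hT : ∑ v, n v * f v = 7 * ∑ v, n v * fN z v + ∑ v, n v * fM z a v := by
    rw [Finset.mul_sum, ← Finset.sum_add_distrib, hf]
    exact Finset.sum_congr rfl fun v _ => by ring
  obtain ⟨T1, hT1⟩ : ∃ T1 : Finset (Cube 7), T1 = (univ.erase a).image (fun i => z + e i) :=
    ⟨_, rfl⟩
  obtain ⟨T2, hT2⟩ : ∃ T2 : Finset (Cube 7),
      T2 = (univ.erase a).image (fun i => z + e a + e i) := ⟨_, rfl⟩
  have hc6 : (univ.erase a : Finset (Fin 7)).card = 6 := by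
    rw [Finset.card_erase_of_mem (Finset.mem_univ _), Finset.card_univ, Fintype.card_fin]
  have hcT1 : T1.card = 6 := by
    rw [hT1, Finset.card_image_of_injective _ (fun i j h => e_injective (add_left_cancel h)), hc6]
  have hcT2 : T2.card = 6 := by
    rw [hT2, Finset.card_image_of_injective _ (fun i j h => e_injective (add_left_cancel h)), hc6]
  have hsT1 : T1 ⊆ B := by
    intro x hx
    rw [hT1, Finset.mem_image] at hx
    obtain ⟨i, hi, rfl⟩ := hx
    exact (hB i (Finset.ne_of_mem_erase hi)).1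
  have hsT2 : T2 ⊆ B := by
    intro x hx
    rw [hT2, Finset.mem_image] at hx
    obtain ⟨i, hi, rfl⟩ := hx
    exact (hB i (Finset.ne_of_mem_erase hi)).2
  have hdis : ∀ x ∈ T1, x ∉ T2 := by
    intro x hx hx'
    rw [hT1, Finset.mem_image] at hx
    rw [hT2, Finset.mem_image] at hx'
    obtain ⟨i, hi, rfl⟩ := hx
    obtain ⟨j, hj, h⟩ := hx'
    exact LocC_ne z a i j (Finset.ne_of_mem_erase hi) (Finset.ne_of_mem_erase hj) h.symm
  obtain ⟨g, hg⟩ : ∃ g : Cube 7 → ℕ,
      g = fun x => (if x ∈ T1 then 14 else 0) + (if x ∈ T2 then 2 else 0) := ⟨_, rfl⟩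
  have hgs : ∑ x ∈ B, g x = 96 := by
    rw [hg, Finset.sum_add_distrib, Finset.sum_ite_mem, Finset.sum_ite_mem,
      Finset.inter_eq_right.2 hsT1, Finset.inter_eq_right.2 hsT2, Finset.sum_const,
      Finset.sum_const, hcT1, hcT2]
    rfl
  have hg14 : ∀ x, g x ≤ 14 := by
    intro x
    rw [hg]
    by_cases h1 : x ∈ T1
    · simp only [h1, hdis x h1, if_true, if_false]
      omega
    · simp only [h1, if_false]
      split_ifs <;> omega
  have hgf : ∀ x ∈ B, g x ≤ f (c x) := by
    intro x hx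
    by_cases h1 : x ∈ T1
    · have h6 : g x = 14 := by
        rw [hg]
        simp only [h1, hdis x h1, if_true, if_false]
      rw [h6, hf]
      have h7 := h1
      rw [hT1, Finset.mem_image] at h7
      obtain ⟨i, -, hi⟩ := h7
      have h8 : fN z (c x) = 2 :=
        fN_two z (c x) i (by rw [hi]; exact h2 x hx) (not_near n z _ hz (hcn x hx))
      show 14 ≤ 7 * fN z (c x) + fM z a (c x)
      omega
    · by_cases h1' : x ∈ T2
      · have h6 : g x = 2 := by
          rw [hg]
          simp only [h1, h1', if_true, if_false]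
        rw [h6, hf]
        have h7 := h1'
        rw [hT2, Finset.mem_image] at h7
        obtain ⟨i, hia, hi⟩ := h7
        exact f_two z (c x) a i (Finset.ne_of_mem_erase hia) (by rw [hi]; exact h2 x hx)
          (not_near n z _ hz (hcn x hx))
      · have h6 : g x = 0 := by
          rw [hg]
          simp only [h1, h1', if_false]
        rw [h6]
        exact Nat.zero_le _
  have hmain : 97 ≤ ∑ v, n v * f v := by
    by_cases hu : ∃ x ∈ B, c x = z + e a + e l
    · obtain ⟨x, hx, hxu⟩ := hu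
      have h1 : ∑ x ∈ B, g x < ∑ x ∈ B, f (c x) := by
        refine Finset.sum_lt_sum hgf ⟨x, hx, ?_⟩
        rw [hxu, hfu]
        have := hg14 x
        omega
      have h4 := wt_le n B c h3 f
      omega
    · push Not at hu
      have h4 := wt_le_add n B c h3 f (z + e a + e l) hul hu
      have h5 : ∑ x ∈ B, g x ≤ ∑ x ∈ B, f (c x) := Finset.sum_le_sum hgf
      omega
  have hN := sum_exN n z
  have hM := sum_exM n z a
  omega

end Pool.Agent.H.MP_b23ae3_co.Seven
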