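import Pool.Agent.H.MP_b23ae3_co.Upper
import Pool.Agent.H.MP_b23ae3_co.asy.Haven
import Pool.Agent.H.MP_b23ae3_co.asy.LowerStatic
import Pool.Agent.H.MP_b23ae3_co.Seven.Iso
import Pool.Agent.H.MP_b23ae3_co.Seven.LocA
import Pool.Agent.H.MP_b23ae3_co.Seven.LocC
import Pool.Agent.H.MP_b23ae3_co.Seven.Glob

/-!
# Module Main: the assembly
-/

set_option autoImplicit false

open Finset

namespace Pool.Agent.H.MP_b23ae3_co.Seven

open Pool.Agent.H.MP_b23ae3_co.Asy

theorem static7 (n : Cube 7 → ℕ) (hn : ∑ v, n v ≤ 15) :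
    ∃ z, jn n z = 0 ∧ ∀ S : Finset (Cube 7), z ∈ S → ¬ Threat n S := by
  by_contra hc
  push Not at hc
  have hloc : ∀ z, jn n z = 0 → 6 ≤ exN n z ∨
      ∃ i, jn n (z + e i) ≠ 0 ∧ 42 ≤ 7 * exN n z + exM n z i := by
    intro z hz
    obtain ⟨S, hzS, hcard, c, h2, h3⟩ := hc z hz
    have hbd : (bd S).card ≤ 15 := by
      have h4 : (bd S).card = ∑ v, ((bd S).filter (fun x => c x = v)).card :=
        Finset.card_eq_sum_card_fiberwise (f := c) (fun x _ => Finset.mem_coe.2 (Finset.mem_univ _))
      rw [h4]
      exact (Finset.sum_le_sum (fun v _ => h3 v)).trans hn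
    have hS2 : S.card ≤ 2 := by
      by_contra h5
      have h6 := iso7 S (by omega) (by omega)
      omega
    have hS : S = {z} ∨ ∃ y, S = {z, y} := by
      have hpos : 0 < S.card := Finset.card_pos.2 ⟨z, hzS⟩
      have h12 : S.card = 1 ∨ S.card = 2 := by omega
      rcases h12 with h | h
      · left
        obtain ⟨w, hw⟩ := Finset.card_eq_one.1 h
        rw [hw, Finset.mem_singleton] at hzS
        rw [hw, hzS]
      · right
        obtain ⟨x, y, _, hw⟩ := Finset.card_eq_two.1 h
        rw [hw, Finset.mem_insert, Finset.mem_singleton] at hzS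
        rcases hzS with h' | h'
        · exact ⟨y, by rw [hw, h']⟩
        · exact ⟨x, by rw [hw, h', Finset.pair_comm]⟩
    rcases hS with rfl | ⟨y, rfl⟩
    · left
      exact locA n z hz _ c (mem_bd_single z) h2 h3
    · by_cases hadj : ∃ a, y = z + e a
      · obtain ⟨a, rfl⟩ := hadj
        by_cases hy : jn n (z + e a) = 0
        · left
          exact locB n z hz a hy _ c (fun i hi => (mem_bd_edge z a i hi).1) h2 h3
        · right
          exact ⟨a, hy, locC n z hz a hy _ c (fun i hi => mem_bd_edge z a i hi) h2 h3⟩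
      · push Not at hadj
        left
        exact locA n z hz _ c (mem_bd_pair z y hadj) h2 h3
  have h1 := glob n hloc
  have h2 := ls_sum_jn n
  have h3 : ∑ w, jn n w = ∑ w, ex n w + (univ.filter (fun w => ¬ jn n w = 0)).card := by
    rw [Finset.card_filter, ← Finset.sum_add_distrib]
    refine Finset.sum_congr rfl fun w _ => ?_
    unfold ex
    split_ifs <;> omega
  have h4 := Finset.card_filter_add_card_filter_not (s := (univ : Finset (Cube 7)))
    (fun w => jn n w = 0)
  have h5 : (univ : Finset (Cube 7)).card = 128 := by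
    rw [Finset.card_univ, Fintype.card_fun, ZMod.card, Fintype.card_fin]
    norm_num
  omega

theorem main : copNumber (hypercube 7) = 16 := by
  have h16 : ∃ σ : CopStrategy (hypercube 7) 16, Wins σ := by
    have h := wins_of_iso (cubeIso 7) (wins_hamming (m := 7) (s := 3) (by norm_num))
    have e16 : 2 ^ (7 - 3) = 16 := by norm_num
    rw [e16] at h
    exact h
  unfold copNumber
  apply le_antisymm
  · exact Nat.sInf_le h16
  · refine le_csInf ⟨16, h16⟩ ?_
    rintro k ⟨σ, hσ⟩
    by_contra hlt
    exact static_to_game (by norm_num) k (fun n hn => static7 n (by omega)) σ hσ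

end Pool.Agent.H.MP_b23ae3_co.Seven
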