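import Pool.Agent.H.MP_b23ae3_co.Seven.Defs

/-!
# Module Wt: weighted counting of the cops

`B` is a set of vertices, `c x` the vertex of the cop matched to `x`; at most `n v` members of `B`
are matched to cops at `v`. `sum_exN`: unfold `jn`, exchange the sums, and `ex ≥ jn - 1`.
-/

set_option autoImplicit false

open Finset

namespace Pool.Agent.H.MP_b23ae3_co.Seven

open Pool.Agent.H.MP_b23ae3_co.Asy

theorem Wt_regroup (B : Finset (Cube 7)) (c : Cube 7 → Cube 7) (f : Cube 7 → ℕ) :
    ∑ x ∈ B, f (c x) = ∑ v, (B.filter (fun x => c x = v)).card * f v := by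
  rw [← Finset.sum_fiberwise B c (fun x => f (c x))]
  refine Finset.sum_congr rfl fun v _ => ?_
  rw [Finset.card_eq_sum_ones, Finset.sum_mul]
  refine Finset.sum_congr rfl fun x hx => ?_
  rw [(Finset.mem_filter.1 hx).2, one_mul]

theorem wt_le (n : Cube 7 → ℕ) (B : Finset (Cube 7)) (c : Cube 7 → Cube 7)
    (h3 : ∀ v, (B.filter (fun x => c x = v)).card ≤ n v) (f : Cube 7 → ℕ) :
    ∑ x ∈ B, f (c x) ≤ ∑ v, n v * f v := by
  rw [Wt_regroup]
  exact Finset.sum_le_sum fun v _ => Nat.mul_le_mul_right _ (h3 v)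

/-- the same with one more cop, at `u`, that is not matched -/
theorem wt_le_add (n : Cube 7 → ℕ) (B : Finset (Cube 7)) (c : Cube 7 → Cube 7)
    (h3 : ∀ v, (B.filter (fun x => c x = v)).card ≤ n v) (f : Cube 7 → ℕ) (u : Cube 7)
    (hu : n u ≠ 0) (hun : ∀ x ∈ B, c x ≠ u) :
    ∑ x ∈ B, f (c x) + f u ≤ ∑ v, n v * f v := by
  rw [Wt_regroup, ← Finset.add_sum_erase univ (fun v => n v * f v) (Finset.mem_univ u),
    ← Finset.add_sum_erase univ (fun v => (B.filter (fun x => c x = v)).card * f v)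
      (Finset.mem_univ u)]
  have h0 : (B.filter (fun x => c x = u)).card = 0 := by
    rw [Finset.card_eq_zero, Finset.filter_eq_empty_iff]
    intro x hx
    exact hun x hx
  have h1 : ∑ v ∈ univ.erase u, (B.filter (fun x => c x = v)).card * f v
      ≤ ∑ v ∈ univ.erase u, n v * f v :=
    Finset.sum_le_sum fun v _ => Nat.mul_le_mul_right _ (h3 v)
  have h2 : f u ≤ n u * f u := Nat.le_mul_of_pos_left _ (Nat.pos_of_ne_zero hu)
  simp only [h0, zero_mul, zero_add]
  omega

theorem Wt_exch (n : Cube 7 → ℕ) (s : Finset (Fin 7)) (g : Fin 7 → Cube 7) :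
    ∑ v, n v * (s.filter (fun i => Near v (g i))).card = ∑ i ∈ s, jn n (g i) := by
  have h : ∀ v, n v * (s.filter (fun i => Near v (g i))).card
      = ∑ i ∈ s, if Near v (g i) then n v else 0 := by
    intro v
    rw [Finset.card_filter, Finset.mul_sum]
    refine Finset.sum_congr rfl fun i _ => ?_
    by_cases hi : Near v (g i)
    · rw [if_pos hi, if_pos hi, mul_one]
    · rw [if_neg hi, if_neg hi, mul_zero]
  simp only [h]
  rw [Finset.sum_comm]
  rfl

theorem Wt_jn_le (n : Cube 7 → ℕ) (w : Cube 7) : jn n w ≤ ex n w + 1 := by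
  unfold ex
  omega

theorem sum_exN (n : Cube 7 → ℕ) (z : Cube 7) : ∑ v, n v * fN z v ≤ exN n z + 7 := by
  unfold fN exN
  rw [Wt_exch n univ (fun i => z + e i)]
  refine (Finset.sum_le_sum fun i _ => Wt_jn_le n (z + e i)).trans ?_
  rw [Finset.sum_add_distrib]
  simp

theorem sum_exM (n : Cube 7 → ℕ) (z : Cube 7) (a : Fin 7) :
    ∑ v, n v * fM z a v ≤ exM n z a + 6 := by
  unfold fM exM
  rw [Wt_exch n (univ.erase a) (fun l => z + e a + e l)]
  refine (Finset.sum_le_sum fun l _ => Wt_jn_le n (z + e a + e l)).trans ?_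
  rw [Finset.sum_add_distrib]
  simp

/-- if `z + e a` has no cop in its closed neighbourhood its excess is zero and it is not counted -/
theorem sum_exN_erase (n : Cube 7 → ℕ) (z : Cube 7) (a : Fin 7) (h : jn n (z + e a) = 0) :
    ∑ v, n v * fN z v ≤ exN n z + 6 := by
  unfold fN exN
  rw [Wt_exch n univ (fun i => z + e i), ← Finset.add_sum_erase univ _ (Finset.mem_univ a),
    ← Finset.add_sum_erase univ (fun i => ex n (z + e i)) (Finset.mem_univ a), h]
  have h1 : ∑ i ∈ univ.erase a, jn n (z + e i) ≤ ∑ i ∈ univ.erase a, ex n (z + e i) + 6 := by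
    refine (Finset.sum_le_sum fun i _ => Wt_jn_le n (z + e i)).trans ?_
    rw [Finset.sum_add_distrib]
    simp
  omega

end Pool.Agent.H.MP_b23ae3_co.Seven
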